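import Pool.Agent.W_pnt_h80.Defs

set_option autoImplicit false

/-! The Laplace transform of `B(t) - 1/φ(q)`. -/

namespace Pool.Agent.W_pnt_h80

open MeasureTheory Set Filter Topology

theorem psiR_nonneg {q : ℕ} (a : ZMod q) (x : ℝ) : 0 ≤ psiR a x := by
  exact Finset.sum_nonneg fun k _ => ArithmeticFunction.vonMangoldt.residueClass_nonneg a k

theorem psiR_mono {q : ℕ} (a : ZMod q) : Monotone (psiR a) := by
  intro x y hxy
  unfold psiR
  refine Finset.sum_le_sum_of_subset_of_nonneg ?_ fun k _ _ =>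
    ArithmeticFunction.vonMangoldt.residueClass_nonneg a k
  exact Finset.Icc_subset_Icc_right (Nat.floor_mono hxy)

/-- From Mathlib's Chebyshev bound `Chebyshev.psi_le_const_mul_self`. -/
theorem psiR_le {q : ℕ} (a : ZMod q) : ∃ C : ℝ, 0 < C ∧ ∀ x : ℝ, 0 ≤ x → psiR a x ≤ C * x := by
  refine ⟨Real.log 4 + 4, by positivity, fun x hx => ?_⟩
  refine le_trans ?_ (Chebyshev.psi_le_const_mul_self hx)
  rw [Chebyshev.psi]
  exact Finset.sum_le_sum fun k _ => ArithmeticFunction.vonMangoldt.residueClass_le a k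

theorem BR_measurable {q : ℕ} (a : ZMod q) : Measurable (BR a) := by
  unfold BR
  exact ((psiR_mono a).measurable.comp Real.measurable_exp).mul
    (Real.measurable_exp.comp measurable_neg)

theorem Laplace_BR_bound {q : ℕ} (a : ZMod q) :
    ∃ C : ℝ, 0 < C ∧ ∀ t : ℝ, 0 ≤ BR a t ∧ BR a t ≤ C := by
  obtain ⟨C, hC, hle⟩ := psiR_le a
  refine ⟨C, hC, fun t => ⟨?_, ?_⟩⟩
  · exact mul_nonneg (psiR_nonneg a _) (Real.exp_pos _).le
  · unfold BR
    have h1 := hle (Real.exp t) (Real.exp_pos t).le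
    calc psiR a (Real.exp t) * Real.exp (-t) ≤ (C * Real.exp t) * Real.exp (-t) :=
          mul_le_mul_of_nonneg_right h1 (Real.exp_pos _).le
      _ = C := by rw [mul_assoc, ← Real.exp_add, add_neg_cancel, Real.exp_zero, mul_one]

theorem Laplace_integrable {q : ℕ} (a : ZMod q) (e y : ℝ) (he : 0 < e) :
    IntegrableOn (fun t : ℝ => (BR a t : ℂ) * Complex.exp (-((e : ℂ) + Complex.I * y) * t))
      (Ioi (0 : ℝ)) := by
  have hw : (-((e : ℂ) + Complex.I * y)).re < 0 := by
    simp [he]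
  obtain ⟨C, hC, hb⟩ := Laplace_BR_bound a
  have h1 : IntegrableOn (fun t : ℝ => Complex.exp (-((e : ℂ) + Complex.I * y) * t))
      (Ioi (0 : ℝ)) := integrableOn_exp_mul_complex_Ioi hw 0
  refine Integrable.bdd_mul (c := C) h1 ?_ ?_
  · exact (Complex.measurable_ofReal.comp (BR_measurable a)).aestronglyMeasurable
  · refine Filter.Eventually.of_forall fun t => ?_
    rw [Complex.norm_real, Real.norm_eq_abs, abs_of_nonneg (hb t).1]
    exact (hb t).2

theorem Laplace_bigO {q : ℕ} (a : ZMod q) :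
    (fun n : ℕ => ∑ k ∈ Finset.Icc 1 n, ArithmeticFunction.vonMangoldt.residueClass a k)
      =O[atTop] fun n : ℕ => (n : ℝ) ^ (1 : ℝ) := by
  obtain ⟨C, hC, hle⟩ := psiR_le a
  refine Asymptotics.IsBigO.of_bound C (Filter.Eventually.of_forall fun n => ?_)
  have h1 := hle (n : ℝ) (Nat.cast_nonneg n)
  have h0 := psiR_nonneg a (n : ℝ)
  unfold psiR at h1 h0
  rw [Nat.floor_natCast] at h1 h0
  rw [Real.rpow_one, Real.norm_eq_abs, abs_of_nonneg h0, Real.norm_eq_abs,
    abs_of_nonneg (Nat.cast_nonneg n)]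
  exact h1

theorem Laplace_main {q : ℕ} (a : ZMod q) (e y : ℝ) (he : 0 < e) :
    ∫ t in Ioi (0 : ℝ), (BR a t : ℂ) * Complex.exp (-((e : ℂ) + Complex.I * y) * t) =
      LSeries (fun n => ((ArithmeticFunction.vonMangoldt.residueClass a n : ℝ) : ℂ))
        (1 + e + Complex.I * y) / (1 + e + Complex.I * y) := by
  have hs : (1 : ℝ) < ((1 : ℂ) + e + Complex.I * y).re := by
    simp [he]
  have hs0 : (1 : ℂ) + e + Complex.I * y ≠ 0 := by
    intro h
    rw [h] at hs
    simp at hs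
    linarith
  rw [LSeries_eq_mul_integral_of_nonneg _ zero_le_one hs (Laplace_bigO a)
    (ArithmeticFunction.vonMangoldt.residueClass_nonneg a), mul_div_cancel_left₀ _ hs0]
  have himg : Real.exp '' (Ioi (0 : ℝ)) = Ioi (1 : ℝ) := by
    ext x
    constructor
    · rintro ⟨u, hu, rfl⟩
      exact Real.one_lt_exp_iff.2 hu
    · intro hx
      refine ⟨Real.log x, Real.log_pos hx, Real.exp_log (lt_trans one_pos hx)⟩
  rw [← himg, integral_image_eq_integral_abs_deriv_smul measurableSet_Ioi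
    (fun x _ => (Real.hasDerivAt_exp x).hasDerivWithinAt) (Real.exp_injective.injOn)]
  refine setIntegral_congr_fun measurableSet_Ioi fun u _ => ?_
  unfold BR psiR
  rw [abs_of_pos (Real.exp_pos u), Complex.real_smul, Complex.ofReal_mul, Complex.ofReal_sum]
  have hexp : ((Real.exp u : ℝ) : ℂ) ^ (-((1 : ℂ) + e + Complex.I * y + 1)) =
      Complex.exp (u * (-((1 : ℂ) + e + Complex.I * y + 1))) := by
    rw [Complex.cpow_def_of_ne_zero (by exact_mod_cast (Real.exp_pos u).ne'),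
      ← Complex.ofReal_log (Real.exp_pos u).le, Real.log_exp]
  rw [hexp, Complex.ofReal_exp, Complex.ofReal_exp, mul_comm (Complex.exp (u : ℂ)), mul_assoc,
    mul_assoc, ← Complex.exp_add, ← Complex.exp_add]
  congr 2
  push_cast
  ring

/-- For `s = 1 + e + i y`, the Laplace transform of `B - 1/φ(q)` at `e + i y` is
`(K(s) - 1/φ(q)) / s`, `K` = `LFunctionResidueClassAux a`: use
`LSeries_eq_mul_integral_of_nonneg` with `r = 1`, the substitution `t = e^u`, and
`eqOn_LFunctionResidueClassAux`. -/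
theorem laplace_BR {q : ℕ} [NeZero q] {a : ZMod q} (ha : IsUnit a) (e y : ℝ) (he : 0 < e) :
    ∫ t in Ioi (0 : ℝ), ((BR a t - (q.totient : ℝ)⁻¹ : ℝ) : ℂ) *
        Complex.exp (-((e : ℂ) + Complex.I * y) * t) =
      (ArithmeticFunction.vonMangoldt.LFunctionResidueClassAux a (1 + e + Complex.I * y) -
        (q.totient : ℂ)⁻¹) / (1 + e + Complex.I * y) := by
  have hw : (-((e : ℂ) + Complex.I * y)).re < 0 := by
    simp [he]
  have hw0 : (e : ℂ) + Complex.I * y ≠ 0 := by
    intro h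
    rw [h] at hw
    simp at hw
  have hs : (1 : ℝ) < ((1 : ℂ) + e + Complex.I * y).re := by
    simp [he]
  have hs0 : (1 : ℂ) + e + Complex.I * y ≠ 0 := by
    intro h
    rw [h] at hs
    simp at hs
    linarith
  have hI1 := Laplace_integrable a e y he
  have hI2 : IntegrableOn (fun t : ℝ => ((q.totient : ℝ)⁻¹ : ℂ) *
      Complex.exp (-((e : ℂ) + Complex.I * y) * t)) (Ioi (0 : ℝ)) :=
    (integrableOn_exp_mul_complex_Ioi hw 0).const_mul _
  have hsplit : ∫ t in Ioi (0 : ℝ), ((BR a t - (q.totient : ℝ)⁻¹ : ℝ) : ℂ) *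
        Complex.exp (-((e : ℂ) + Complex.I * y) * t) =
      (∫ t in Ioi (0 : ℝ), (BR a t : ℂ) * Complex.exp (-((e : ℂ) + Complex.I * y) * t)) -
      ∫ t in Ioi (0 : ℝ), ((q.totient : ℝ)⁻¹ : ℂ) *
        Complex.exp (-((e : ℂ) + Complex.I * y) * t) := by
    rw [← integral_sub hI1 hI2]
    refine integral_congr_ae (Filter.Eventually.of_forall fun t => ?_)
    dsimp only
    rw [← sub_mul]
    congr 1
    push_cast
    rfl
  have hconst : ∫ t in Ioi (0 : ℝ), ((q.totient : ℝ)⁻¹ : ℂ) *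
        Complex.exp (-((e : ℂ) + Complex.I * y) * t) =
      (q.totient : ℂ)⁻¹ / ((e : ℂ) + Complex.I * y) := by
    rw [integral_const_mul, integral_exp_mul_complex_Ioi hw 0]
    simp only [Complex.ofReal_zero, mul_zero, Complex.exp_zero, Complex.ofReal_natCast]
    field_simp
  rw [hsplit, hconst, Laplace_main a e y he]
  have hK := ArithmeticFunction.vonMangoldt.eqOn_LFunctionResidueClassAux ha
    (show ((1 : ℂ) + e + Complex.I * y) ∈ {s : ℂ | 1 < s.re} from hs)
  rw [hK]
  have hsub : (1 : ℂ) + e + Complex.I * y - 1 = (e : ℂ) + Complex.I * y := by ring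
  dsimp only
  rw [hsub]
  set w : ℂ := (e : ℂ) + Complex.I * y with hwdef
  have hs1 : (1 : ℂ) + e + Complex.I * y = 1 + w := by rw [hwdef]; ring
  rw [hs1] at hs0 ⊢
  generalize LSeries (fun n => ((ArithmeticFunction.vonMangoldt.residueClass a n : ℝ) : ℂ)) (1 + w) = Lv
  generalize (q.totient : ℂ)⁻¹ = c
  field_simp
  ring

end Pool.Agent.W_pnt_h80
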