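import Pool.Agent.W_pnt_h80.Defs

set_option autoImplicit false

/-! Riemann-Lebesgue on a compact interval. -/

namespace Pool.Agent.W_pnt_h80

open MeasureTheory Set Filter Topology

theorem RL_tendsto : Tendsto (fun v : ℝ => -v / (2 * Real.pi)) atTop (cocompact ℝ) := by
  have h1 : Tendsto (fun v : ℝ => -v / (2 * Real.pi)) atTop atBot := by
    refine Tendsto.atBot_div_const (by positivity) ?_
    exact tendsto_neg_atTop_atBot
  exact h1.mono_right atBot_le_cocompact

/-- Riemann-Lebesgue (from Mathlib's `Real.tendsto_integral_exp_smul_cocompact` or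
`tendsto_integral_exp_inner_smul_cocompact`). -/
theorem riemann_lebesgue {l : ℝ} (hl : 0 < l) {G : ℝ → ℂ} (hG : Continuous G) :
    Tendsto (fun v : ℝ => ∫ y in (-l)..l,
      ((tri l y : ℝ) : ℂ) * Complex.exp (Complex.I * y * v) * G y) atTop (𝓝 0) := by
  have h := (Real.tendsto_integral_exp_smul_cocompact
    (Set.indicator (Ioc (-l) l) (fun y : ℝ => ((tri l y : ℝ) : ℂ) * G y))).comp RL_tendsto
  refine h.congr fun v => ?_
  rw [intervalIntegral.integral_of_le (by linarith), ← integral_indicator measurableSet_Ioc]
  refine integral_congr_ae (Eventually.of_forall fun y => ?_)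
  by_cases hy : y ∈ Ioc (-l) l
  · simp only [Set.indicator_of_mem hy]
    rw [Circle.smul_def, Real.fourierChar_apply, smul_eq_mul]
    have e : ((2 * Real.pi * -(y * (-v / (2 * Real.pi))) : ℝ) : ℂ) * Complex.I =
        Complex.I * y * v := by
      have e1 : 2 * Real.pi * -(y * (-v / (2 * Real.pi))) = y * v := by
        have := Real.pi_pos
        field_simp
      rw [e1]
      push_cast
      ring
    rw [e]
    ring
  · simp only [Set.indicator_of_notMem hy, smul_zero]

end Pool.Agent.W_pnt_h80
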