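import Pool.Agent.W_pnt_h80.Fejer

set_option autoImplicit false

/-! The Tauberian step. -/

namespace Pool.Agent.W_pnt_h80

open MeasureTheory Set Filter Topology

/-- The part of the Fejer mass seen from `v` on the positive half line tends to the full mass. -/
theorem Tauber_mass {l : ℝ} (hl : 0 < l) :
    Tendsto (fun v : ℝ => ∫ t in Ioi (0 : ℝ), fej l (v - t)) atTop (𝓝 (∫ u, fej 1 u)) := by
  have h1 : ∀ v : ℝ, ∫ t in Ioi (0 : ℝ), fej l (v - t) = ∫ u in Iio v, fej l u := by
    intro v
    rw [← integral_indicator measurableSet_Ioi, ← integral_indicator measurableSet_Iio,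
      ← integral_sub_left_eq_self ((Iio v).indicator (fej l)) volume v]
    refine integral_congr_ae (Eventually.of_forall fun t => ?_)
    by_cases ht : 0 < t
    · have h2 : v - t < v := by linarith
      simp [indicator, ht]
    · have h2 : ¬ (v - t < v) := by linarith
      simp [indicator, ht]
  simp_rw [h1]
  rw [← fej_integral_eq hl]
  exact (aecover_Iio tendsto_id).integral_tendsto_of_countably_generated (fej_integrable hl)

theorem Tauber_int {B : ℝ → ℝ} {C : ℝ} (hm : Measurable B) (h0 : ∀ t, 0 ≤ B t)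
    (hC : ∀ t, B t ≤ C) {l : ℝ} (hl : 0 < l) (v : ℝ) :
    Integrable (fun t => B t * fej l (v - t)) := by
  refine Integrable.bdd_mul (c := C) ((fej_integrable hl).comp_sub_left v)
    hm.aestronglyMeasurable (Eventually.of_forall fun t => ?_)
  rw [Real.norm_eq_abs, abs_of_nonneg (h0 t)]
  exact hC t

/-- The Fejer averages of `B` tend to `c` times the mass. -/
theorem Tauber_avg {B : ℝ → ℝ} {c C : ℝ} (hm : Measurable B) (h0 : ∀ t, 0 ≤ B t)
    (hC : ∀ t, B t ≤ C)
    (hlim : ∀ l : ℝ, 0 < l → Tendsto (fun v : ℝ => ∫ t in Ioi (0 : ℝ), (B t - c) * fej l (v - t))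
      atTop (𝓝 0)) {l : ℝ} (hl : 0 < l) :
    Tendsto (fun v : ℝ => ∫ t in Ioi (0 : ℝ), B t * fej l (v - t)) atTop
      (𝓝 (c * ∫ u, fej 1 u)) := by
  have h1 := (hlim l hl).add ((Tauber_mass hl).const_mul c)
  rw [zero_add] at h1
  refine h1.congr fun v => ?_
  rw [← integral_const_mul, ← integral_add]
  · refine integral_congr_ae (Eventually.of_forall fun t => ?_)
    simp only
    ring
  · have h2 := (Tauber_int hm h0 hC hl v).integrableOn (s := Ioi (0 : ℝ))
    have h3 := (((fej_integrable hl).comp_sub_left v).const_mul c).integrableOn (s := Ioi (0 : ℝ))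
    refine (h2.sub h3).congr (Eventually.of_forall fun t => ?_)
    simp only [Pi.sub_apply]
    ring
  · exact (((fej_integrable hl).comp_sub_left v).const_mul c).integrableOn

/-- Mass of the Fejer kernel centred at `w` on `[w - δ, w + δ]`. -/
theorem Tauber_window {l δ η : ℝ} (hl : 0 < l) (hδ : 0 < δ)
    (ht : ∫ u in {u : ℝ | δ ≤ |u|}, fej l u ≤ η) (w : ℝ) :
    (∫ u, fej 1 u) - η ≤ ∫ t in Icc (w - δ) (w + δ), fej l (w - t) := by
  have hms : MeasurableSet {u : ℝ | δ ≤ |u|} := measurableSet_le measurable_const measurable_norm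
  have h1 : ∫ t in Icc (w - δ) (w + δ), fej l (w - t) = ∫ u in Icc (-δ) δ, fej l u := by
    rw [← integral_indicator measurableSet_Icc, ← integral_indicator measurableSet_Icc,
      ← integral_sub_left_eq_self ((Icc (-δ) δ).indicator (fej l)) volume w]
    refine integral_congr_ae (Eventually.of_forall fun t => ?_)
    have h2 : t ∈ Icc (w - δ) (w + δ) ↔ w - t ∈ Icc (-δ) δ := by
      simp only [mem_Icc]
      constructor
      · rintro ⟨a, b⟩; constructor <;> linarith
      · rintro ⟨a, b⟩; constructor <;> linarith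
    by_cases h3 : t ∈ Icc (w - δ) (w + δ)
    · simp only [indicator_of_mem h3, indicator_of_mem (h2.1 h3)]
    · have h4 : w - t ∉ Icc (-δ) δ := fun h => h3 (h2.2 h)
      simp only [indicator_of_notMem h3, indicator_of_notMem h4]
  have h5 := integral_add_compl hms (fej_integrable hl)
  have h6 : ∫ u in {u : ℝ | δ ≤ |u|}ᶜ, fej l u ≤ ∫ u in Icc (-δ) δ, fej l u := by
    refine setIntegral_mono_set (fej_integrable hl).integrableOn
      (Eventually.of_forall fun u => fej_nonneg hl u) (LE.le.eventuallyLE ?_)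
    intro u hu
    simp only [mem_compl_iff, mem_ofPred_eq, not_le] at hu
    have := abs_lt.1 hu
    exact ⟨by linarith, by linarith⟩
  rw [h1]
  rw [fej_integral_eq hl] at h5
  linarith

/-- Mass of the Fejer kernel centred at `w` away from `[w - δ, w + δ]`. -/
theorem Tauber_out {l δ η : ℝ}
    (ht : ∫ u in {u : ℝ | δ ≤ |u|}, fej l u ≤ η) (w : ℝ) :
    ∫ t in {t : ℝ | δ ≤ |w - t|}, fej l (w - t) ≤ η := by
  have hms : MeasurableSet {u : ℝ | δ ≤ |u|} := measurableSet_le measurable_const measurable_norm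
  have hms2 : MeasurableSet {t : ℝ | δ ≤ |w - t|} :=
    measurableSet_le measurable_const ((measurable_const.sub measurable_id).norm)
  have h1 : ∫ t in {t : ℝ | δ ≤ |w - t|}, fej l (w - t) = ∫ u in {u : ℝ | δ ≤ |u|}, fej l u := by
    rw [← integral_indicator hms2, ← integral_indicator hms,
      ← integral_sub_left_eq_self ({u : ℝ | δ ≤ |u|}.indicator (fej l)) volume w]
    refine integral_congr_ae (Eventually.of_forall fun t => ?_)
    by_cases h3 : δ ≤ |w - t|
    · simp [indicator, h3]
    · simp [indicator, h3]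
  rw [h1]; exact ht

/-- Lower bound for the average centred at `v + δ`. -/
theorem Tauber_up {B : ℝ → ℝ} {C : ℝ} (hm : Measurable B) (h0 : ∀ t, 0 ≤ B t)
    (hC : ∀ t, B t ≤ C) (hmono : MonotoneOn (fun t => Real.exp t * B t) (Ici 0))
    {l δ η : ℝ} (hl : 0 < l) (hδ : 0 < δ)
    (ht : ∫ u in {u : ℝ | δ ≤ |u|}, fej l u ≤ η) {v : ℝ} (hv : 0 < v) :
    B v * Real.exp (-(2 * δ)) * ((∫ u, fej 1 u) - η) ≤
      ∫ t in Ioi (0 : ℝ), B t * fej l (v + δ - t) := by
  have hw := Tauber_window hl hδ ht (v + δ)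
  have h1 : B v * Real.exp (-(2 * δ)) * ((∫ u, fej 1 u) - η) ≤
      B v * Real.exp (-(2 * δ)) * ∫ t in Icc (v + δ - δ) (v + δ + δ), fej l (v + δ - t) :=
    mul_le_mul_of_nonneg_left hw (mul_nonneg (h0 v) (Real.exp_pos _).le)
  refine h1.trans ?_
  rw [← integral_const_mul]
  have h2 : ∫ t in Icc (v + δ - δ) (v + δ + δ), B v * Real.exp (-(2 * δ)) * fej l (v + δ - t) ≤
      ∫ t in Icc (v + δ - δ) (v + δ + δ), B t * fej l (v + δ - t) := by
    refine setIntegral_mono_on
      (((fej_integrable hl).comp_sub_left (v + δ)).const_mul _).integrableOn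
      (Tauber_int hm h0 hC hl _).integrableOn measurableSet_Icc fun t htt => ?_
    refine mul_le_mul_of_nonneg_right ?_ (fej_nonneg hl _)
    have h3 : v ≤ t := by have := htt.1; linarith
    have h4 : t ≤ v + 2 * δ := by have := htt.2; linarith
    have h5 := hmono (mem_Ici.2 hv.le) (mem_Ici.2 (hv.le.trans h3)) h3
    simp only at h5
    have h6 : B v * Real.exp (v - t) ≤ B t := by
      have h7 : Real.exp (v - t) * Real.exp t = Real.exp v := by
        rw [← Real.exp_add]; congr 1; ring
      have h8 : B v * Real.exp (v - t) * Real.exp t ≤ B t * Real.exp t := by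
        calc B v * Real.exp (v - t) * Real.exp t = Real.exp v * B v := by rw [mul_assoc, h7, mul_comm]
          _ ≤ Real.exp t * B t := h5
          _ = B t * Real.exp t := mul_comm _ _
      exact le_of_mul_le_mul_right h8 (Real.exp_pos t)
    refine le_trans ?_ h6
    exact mul_le_mul_of_nonneg_left (Real.exp_le_exp.2 (by linarith)) (h0 v)
  refine h2.trans ?_
  refine setIntegral_mono_set (Tauber_int hm h0 hC hl _).integrableOn
    (Eventually.of_forall fun u => mul_nonneg (h0 u) (fej_nonneg hl _))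
    (LE.le.eventuallyLE ?_)
  intro t htt
  have := htt.1
  exact mem_Ioi.2 (by linarith)

/-- Upper bound for the average centred at `v - δ`. -/
theorem Tauber_low {B : ℝ → ℝ} {C : ℝ} (hm : Measurable B) (h0 : ∀ t, 0 ≤ B t)
    (hC : ∀ t, B t ≤ C) (hmono : MonotoneOn (fun t => Real.exp t * B t) (Ici 0))
    {l δ η : ℝ} (hl : 0 < l) (hδ : 0 < δ)
    (ht : ∫ u in {u : ℝ | δ ≤ |u|}, fej l u ≤ η) {v : ℝ} (hv : 2 * δ < v) :
    ∫ t in Ioi (0 : ℝ), B t * fej l (v - δ - t) ≤
      B v * Real.exp (2 * δ) * (∫ u, fej 1 u) + C * η := by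
  have hC0 : 0 ≤ C := (h0 0).trans (hC 0)
  set S : Set ℝ := {t : ℝ | δ ≤ |v - δ - t|} with hS
  have hms2 : MeasurableSet S :=
    measurableSet_le measurable_const ((measurable_const.sub measurable_id).norm)
  have hint := Tauber_int hm h0 hC hl (v - δ)
  have h1 : ∫ t in Ioi (0 : ℝ), B t * fej l (v - δ - t) ≤ ∫ t, B t * fej l (v - δ - t) :=
    setIntegral_le_integral hint
      (Eventually.of_forall fun u => mul_nonneg (h0 u) (fej_nonneg hl _))
  have h2 := integral_add_compl hms2 hint
  have h3 : ∫ t in S, B t * fej l (v - δ - t) ≤ C * η := by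
    have h4 : ∫ t in S, B t * fej l (v - δ - t) ≤ ∫ t in S, C * fej l (v - δ - t) := by
      refine setIntegral_mono_on hint.integrableOn
        (((fej_integrable hl).comp_sub_left (v - δ)).const_mul _).integrableOn hms2
        fun t _ => mul_le_mul_of_nonneg_right (hC t) (fej_nonneg hl _)
    refine h4.trans ?_
    rw [integral_const_mul]
    exact mul_le_mul_of_nonneg_left (Tauber_out ht (v - δ)) hC0
  have h5 : ∫ t in Sᶜ, B t * fej l (v - δ - t) ≤ B v * Real.exp (2 * δ) * (∫ u, fej 1 u) := by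
    have h6 : ∫ t in Sᶜ, B t * fej l (v - δ - t) ≤
        ∫ t in Sᶜ, B v * Real.exp (2 * δ) * fej l (v - δ - t) := by
      refine setIntegral_mono_on hint.integrableOn
        (((fej_integrable hl).comp_sub_left (v - δ)).const_mul _).integrableOn hms2.compl
        fun t htt => mul_le_mul_of_nonneg_right ?_ (fej_nonneg hl _)
      have h7 : |v - δ - t| < δ := by
        by_contra hcon
        exact htt (not_lt.1 hcon)
      have h8 := abs_lt.1 h7
      have h9 : t ≤ v := by linarith
      have h10 : v - 2 * δ ≤ t := by linarith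
      have h11 : 0 < t := by linarith
      have h12 := hmono (mem_Ici.2 h11.le) (mem_Ici.2 (h11.le.trans h9)) h9
      simp only at h12
      have h13 : B t ≤ B v * Real.exp (v - t) := by
        have h7 : Real.exp (v - t) * Real.exp t = Real.exp v := by
          rw [← Real.exp_add]; congr 1; ring
        have h8 : B t * Real.exp t ≤ B v * Real.exp (v - t) * Real.exp t := by
          calc B t * Real.exp t = Real.exp t * B t := mul_comm _ _
            _ ≤ Real.exp v * B v := h12
            _ = B v * Real.exp (v - t) * Real.exp t := by rw [mul_assoc, h7, mul_comm]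
        exact le_of_mul_le_mul_right h8 (Real.exp_pos t)
      refine h13.trans ?_
      exact mul_le_mul_of_nonneg_left (Real.exp_le_exp.2 (by linarith)) (h0 v)
    refine h6.trans ?_
    rw [integral_const_mul]
    refine mul_le_mul_of_nonneg_left ?_ (mul_nonneg (h0 v) (Real.exp_pos _).le)
    have h14 : ∫ t in Sᶜ, fej l (v - δ - t) ≤ ∫ t, fej l (v - δ - t) :=
      setIntegral_le_integral ((fej_integrable hl).comp_sub_left _)
        (Eventually.of_forall fun u => fej_nonneg hl _)
    refine h14.trans ?_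
    rw [integral_sub_left_eq_self (fej l) volume (v - δ), fej_integral_eq hl]
  linarith

/-- If all Fejer averages of `B - c` tend to zero, `0 ≤ B ≤ C` and `e^t B(t)` is nondecreasing,
then `B → c`.
Upper bound: for `t ∈ [v, v + 2δ]`, `B t ≥ B v e^(-2δ)`; average with centre `v + δ`.
Lower bound: for `t ∈ [v - 2δ, v]`, `B t ≤ B v e^(2δ)`; average with centre `v - δ`.
Note `∫_{t > 0} c fej l (v - t) dt → c ∫ fej 1` as `v → ∞`. -/
theorem tauber_fej {B : ℝ → ℝ} {c C : ℝ} (hm : Measurable B) (h0 : ∀ t, 0 ≤ B t)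
    (hC : ∀ t, B t ≤ C) (hmono : MonotoneOn (fun t => Real.exp t * B t) (Ici 0))
    (hlim : ∀ l : ℝ, 0 < l → Tendsto (fun v : ℝ => ∫ t in Ioi (0 : ℝ), (B t - c) * fej l (v - t))
      atTop (𝓝 0)) :
    Tendsto B atTop (𝓝 c) := by
  set M : ℝ := ∫ u, fej 1 u with hM
  have hMpos : 0 < M := fej_integral_pos
  have havg : ∀ {l : ℝ}, 0 < l → Tendsto (fun v : ℝ => ∫ t in Ioi (0 : ℝ), B t * fej l (v - t))
      atTop (𝓝 (c * M)) := fun hl => Tauber_avg hm h0 hC hlim hl
  have hc0 : 0 ≤ c := by
    have h1 : 0 ≤ c * M := by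
      refine ge_of_tendsto (havg one_pos) (Eventually.of_forall fun v => ?_)
      exact integral_nonneg fun t => mul_nonneg (h0 t) (fej_nonneg one_pos _)
    exact nonneg_of_mul_nonneg_left h1 hMpos
  have hC0 : 0 ≤ C := (h0 0).trans (hC 0)
  refine tendsto_order.2 ⟨fun a ha => ?_, fun b hb => ?_⟩
  · -- lower bound
    -- choose δ, η with exp(-2δ) (c M - 2 stuff)/M > a
    have hcont : Tendsto (fun δ : ℝ => (c * M - δ - C * δ) * Real.exp (-(2 * δ)) / M)
        (𝓝[>] 0) (𝓝 c) := by
      have h1 : ContinuousAt (fun δ : ℝ => (c * M - δ - C * δ) * Real.exp (-(2 * δ)) / M) 0 := by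
        fun_prop
      have h2 := h1.tendsto
      simp only [mul_zero, sub_zero, neg_zero, Real.exp_zero, mul_one] at h2
      rw [mul_div_assoc, div_self hMpos.ne', mul_one] at h2
      exact h2.mono_left nhdsWithin_le_nhds
    obtain ⟨δ, hδa, hδ⟩ := ((hcont.eventually (lt_mem_nhds ha)).and
      self_mem_nhdsWithin).exists
    have hδ0 : 0 < δ := hδ
    obtain ⟨l0, hl0, htail⟩ := fej_tail hδ0 hδ0
    have ht := htail l0 le_rfl
    have h3 : Tendsto (fun v : ℝ => ∫ t in Ioi (0 : ℝ), B t * fej l0 (v - δ - t))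
        atTop (𝓝 (c * M)) :=
      (havg hl0).comp (tendsto_atTop_add_const_right atTop (-δ) tendsto_id)
    have h4 : ∀ᶠ v in atTop, c * M - δ < ∫ t in Ioi (0 : ℝ), B t * fej l0 (v - δ - t) :=
      h3.eventually (lt_mem_nhds (by linarith))
    filter_upwards [h4, eventually_gt_atTop (2 * δ)] with v hv1 hv2
    have h5 := Tauber_low hm h0 hC hmono hl0 hδ0 ht hv2
    rw [← hM] at h5
    have h6 : c * M - δ - C * δ < B v * Real.exp (2 * δ) * M := by linarith
    refine hδa.trans ?_
    rw [div_lt_iff₀ hMpos]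
    have h7 : Real.exp (2 * δ) * Real.exp (-(2 * δ)) = 1 := by
      rw [← Real.exp_add]; simp
    calc (c * M - δ - C * δ) * Real.exp (-(2 * δ))
        < (B v * Real.exp (2 * δ) * M) * Real.exp (-(2 * δ)) :=
          mul_lt_mul_of_pos_right h6 (Real.exp_pos _)
      _ = B v * M * (Real.exp (2 * δ) * Real.exp (-(2 * δ))) := by ring
      _ = B v * M := by rw [h7, mul_one]
  · -- upper bound
    have hcont : Tendsto (fun δ : ℝ => (c * M + δ) * Real.exp (2 * δ) / (M - δ))
        (𝓝[>] 0) (𝓝 c) := by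
      have h1 : ContinuousAt (fun δ : ℝ => (c * M + δ) * Real.exp (2 * δ) / (M - δ)) 0 := by
        refine ContinuousAt.div (by fun_prop) (by fun_prop) ?_
        simpa using hMpos.ne'
      have h2 := h1.tendsto
      simp only [mul_zero, add_zero, sub_zero, Real.exp_zero, mul_one] at h2
      rw [mul_div_assoc, div_self hMpos.ne', mul_one] at h2
      exact h2.mono_left nhdsWithin_le_nhds
    obtain ⟨δ, ⟨hδa, hδ⟩, hδM⟩ := (((hcont.eventually (gt_mem_nhds hb)).and
      self_mem_nhdsWithin).and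
      ((continuous_id.tendsto (0 : ℝ)).mono_left nhdsWithin_le_nhds |>.eventually
        (gt_mem_nhds hMpos))).exists
    have hδ0 : 0 < δ := hδ
    have hδM' : δ < M := hδM
    obtain ⟨l0, hl0, htail⟩ := fej_tail hδ0 hδ0
    have ht := htail l0 le_rfl
    have h3 : Tendsto (fun v : ℝ => ∫ t in Ioi (0 : ℝ), B t * fej l0 (v + δ - t))
        atTop (𝓝 (c * M)) :=
      (havg hl0).comp (tendsto_atTop_add_const_right atTop δ tendsto_id)
    have h4 : ∀ᶠ v in atTop, (∫ t in Ioi (0 : ℝ), B t * fej l0 (v + δ - t)) < c * M + δ :=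
      h3.eventually (gt_mem_nhds (by linarith))
    filter_upwards [h4, eventually_gt_atTop (0 : ℝ)] with v hv1 hv2
    have h5 := Tauber_up hm h0 hC hmono hl0 hδ0 ht hv2
    rw [← hM] at h5
    have h6 : B v * Real.exp (-(2 * δ)) * (M - δ) < c * M + δ := by linarith
    refine lt_trans ?_ hδa
    rw [lt_div_iff₀ (by linarith)]
    have h7 : Real.exp (-(2 * δ)) * Real.exp (2 * δ) = 1 := by
      rw [← Real.exp_add]; simp
    calc B v * (M - δ) = B v * (M - δ) * (Real.exp (-(2 * δ)) * Real.exp (2 * δ)) := by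
          rw [h7, mul_one]
      _ = (B v * Real.exp (-(2 * δ)) * (M - δ)) * Real.exp (2 * δ) := by ring
      _ < (c * M + δ) * Real.exp (2 * δ) := mul_lt_mul_of_pos_right h6 (Real.exp_pos _)

end Pool.Agent.W_pnt_h80
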