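import Pool.Agent.W_pnt_h80.Fubini
import Pool.Agent.W_pnt_h80.RL
import Pool.Agent.W_pnt_h80.Tauber
import Pool.Agent.W_pnt_h80.Laplace

set_option autoImplicit false

/-! The prime number theorem, also in arithmetic progressions. -/

namespace Pool.Agent.W_pnt_h80

open MeasureTheory Set Filter Topology

theorem PNT_BR_nonneg {q : ℕ} (a : ZMod q) (t : ℝ) : 0 ≤ BR a t :=
  mul_nonneg (psiR_nonneg a _) (Real.exp_pos _).le

theorem PNT_BR_le {q : ℕ} (a : ZMod q) : ∃ C : ℝ, 0 < C ∧ ∀ t : ℝ, BR a t ≤ C := by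
  obtain ⟨C, hC, h⟩ := psiR_le a
  refine ⟨C, hC, fun t => ?_⟩
  have h1 := mul_le_mul_of_nonneg_right (h (Real.exp t) (Real.exp_pos t).le)
    (Real.exp_pos (-t)).le
  rw [mul_assoc, ← Real.exp_add, add_neg_cancel, Real.exp_zero, mul_one] at h1
  exact h1

/-- The boundary function. -/
noncomputable def PNT_G {q : ℕ} [NeZero q] (a : ZMod q) (p : ℝ × ℝ) : ℂ :=
  (ArithmeticFunction.vonMangoldt.LFunctionResidueClassAux a
      (1 + (p.1 : ℂ) + Complex.I * p.2) - (q.totient : ℂ)⁻¹) / (1 + (p.1 : ℂ) + Complex.I * p.2)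

theorem PNT_re (p : ℝ × ℝ) : (1 + (p.1 : ℂ) + Complex.I * p.2).re = 1 + p.1 := by
  simp

theorem PNT_G_cont {q : ℕ} [NeZero q] (a : ZMod q) :
    ContinuousOn (PNT_G a) (Ici 0 ×ˢ univ) := by
  have hc : Continuous fun p : ℝ × ℝ => (1 + (p.1 : ℂ) + Complex.I * p.2) := by fun_prop
  have hmaps : MapsTo (fun p : ℝ × ℝ => (1 + (p.1 : ℂ) + Complex.I * p.2)) (Ici 0 ×ˢ univ)
      {s : ℂ | 1 ≤ s.re} := by
    intro p hp
    have h1 : 0 ≤ p.1 := hp.1
    show 1 ≤ (1 + (p.1 : ℂ) + Complex.I * p.2).re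
    rw [PNT_re]
    linarith
  have h2 := (ArithmeticFunction.vonMangoldt.continuousOn_LFunctionResidueClassAux a).comp
    hc.continuousOn hmaps
  refine ContinuousOn.div (h2.sub continuousOn_const) hc.continuousOn ?_
  intro p hp h0
  have h1 : 0 ≤ p.1 := hp.1
  have h3 := PNT_re p
  rw [h0] at h3
  simp at h3
  linarith

theorem PNT_lim {q : ℕ} [NeZero q] {a : ZMod q} (ha : IsUnit a) (l : ℝ) (hl : 0 < l) :
    Tendsto (fun v : ℝ => ∫ t in Ioi (0 : ℝ), (BR a t - (q.totient : ℝ)⁻¹) * fej l (v - t))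
      atTop (𝓝 0) := by
  obtain ⟨C, hC, hB⟩ := PNT_BR_le a
  have hm : Measurable fun t => BR a t - (q.totient : ℝ)⁻¹ := (BR_measurable a).sub_const _
  have hφ : (0 : ℝ) ≤ (q.totient : ℝ)⁻¹ := by positivity
  have hD : ∀ t, |BR a t - (q.totient : ℝ)⁻¹| ≤ C + (q.totient : ℝ)⁻¹ := by
    intro t
    have h1 := PNT_BR_nonneg a t
    have h2 := hB t
    rw [abs_le]
    constructor <;> linarith
  have hG0 : Continuous fun y : ℝ => PNT_G a (0, y) := by
    rw [← continuousOn_univ]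
    refine (PNT_G_cont a).comp (by fun_prop) ?_
    intro y _
    exact ⟨mem_Ici.mpr (le_refl _), mem_univ _⟩
  have h1 := riemann_lebesgue hl hG0
  have h2 : ∀ v : ℝ, (∫ y in (-l)..l, ((tri l y : ℝ) : ℂ) * Complex.exp (Complex.I * y * v) *
      PNT_G a (0, y)) =
      ((∫ t in Ioi (0 : ℝ), (BR a t - (q.totient : ℝ)⁻¹) * fej l (v - t) : ℝ) : ℂ) := by
    intro v
    refine fubini_fej_zero hl hm hD (PNT_G_cont a) ?_
    intro e y he
    exact laplace_BR ha e y he
  simp only [h2] at h1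
  have h3 := (Complex.continuous_re.tendsto 0).comp h1
  rw [Complex.zero_re] at h3
  exact h3

/-- Prime number theorem in arithmetic progressions, for the von Mangoldt function. -/
theorem psiR_tendsto {q : ℕ} [NeZero q] {a : ZMod q} (ha : IsUnit a) :
    Tendsto (fun x : ℝ => psiR a x / x) atTop (𝓝 ((q.totient : ℝ)⁻¹)) := by
  obtain ⟨C, hC, hB⟩ := PNT_BR_le a
  have h1 : Tendsto (BR a) atTop (𝓝 ((q.totient : ℝ)⁻¹)) := by
    refine tauber_fej (C := C) (BR_measurable a) (PNT_BR_nonneg a) hB ?_ (PNT_lim ha)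
    intro s _ t _ hst
    have h2 : ∀ t, Real.exp t * BR a t = psiR a (Real.exp t) := by
      intro t
      rw [BR, mul_comm, mul_assoc, ← Real.exp_add, neg_add_cancel, Real.exp_zero, mul_one]
    show Real.exp s * BR a s ≤ Real.exp t * BR a t
    rw [h2, h2]
    exact psiR_mono a (Real.exp_le_exp.mpr hst)
  have h2 := h1.comp Real.tendsto_log_atTop
  refine h2.congr' ?_
  filter_upwards [eventually_gt_atTop 0] with x hx
  show BR a (Real.log x) = psiR a x / x
  rw [BR, Real.exp_neg, Real.exp_log hx, div_eq_mul_inv]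

theorem psi_tendsto : Tendsto (fun x : ℝ => Chebyshev.psi x / x) atTop (𝓝 1) := by
  have h1 := psiR_tendsto (q := 1) (a := 1) isUnit_one
  simp only [Nat.totient_one, Nat.cast_one, inv_one] at h1
  refine h1.congr ?_
  intro x
  congr 1
  rw [psiR, Chebyshev.psi]
  refine Finset.sum_congr rfl ?_
  intro k _
  rw [ArithmeticFunction.vonMangoldt.residueClass, Set.indicator_of_mem]
  show ((k : ℕ) : ZMod 1) = 1
  exact Subsingleton.elim _ _

theorem theta_tendsto : Tendsto (fun x : ℝ => Chebyshev.theta x / x) atTop (𝓝 1) := by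
  obtain ⟨C, hC⟩ := Chebyshev.psi_sub_theta_le_mul_sqrt
  have h1 : Tendsto (fun x : ℝ => (Chebyshev.psi x - Chebyshev.theta x) / x) atTop (𝓝 0) := by
    have h2 : Tendsto (fun x : ℝ => C * (Real.sqrt x)⁻¹) atTop (𝓝 0) := by
      have h3 : Tendsto (fun x : ℝ => (Real.sqrt x)⁻¹) atTop (𝓝 0) :=
        tendsto_inv_atTop_zero.comp Real.tendsto_sqrt_atTop
      have h4 := h3.const_mul C
      rwa [mul_zero] at h4
    refine tendsto_of_tendsto_of_tendsto_of_le_of_le' tendsto_const_nhds h2 ?_ ?_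
    · filter_upwards [eventually_gt_atTop 0] with x hx
      exact div_nonneg (sub_nonneg.mpr (Chebyshev.theta_le_psi x)) hx.le
    · filter_upwards [eventually_gt_atTop 0] with x hx
      rw [div_le_iff₀ hx]
      refine (hC x).trans (le_of_eq ?_)
      have h5 : Real.sqrt x * Real.sqrt x = x := Real.mul_self_sqrt hx.le
      have h6 : Real.sqrt x ≠ 0 := (Real.sqrt_pos.mpr hx).ne'
      rw [mul_assoc]
      congr 1
      nth_rewrite 3 [← h5]
      rw [← mul_assoc, inv_mul_cancel₀ h6, one_mul]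
  have h2 := psi_tendsto.sub h1
  rw [sub_zero] at h2
  refine h2.congr ?_
  intro x
  ring

/-- The prime number theorem. -/
theorem pi_tendsto :
    Tendsto (fun x : ℝ => (Nat.primeCounting ⌊x⌋₊ : ℝ) * Real.log x / x) atTop (𝓝 1) := by
  have h1 := Chebyshev.primeCounting_sub_theta_div_log_isBigO
  have h2 : (fun x : ℝ => ((Nat.primeCounting ⌊x⌋₊ : ℝ) - Chebyshev.theta x / Real.log x) *
      (Real.log x / x)) =O[atTop] (fun x : ℝ => x / Real.log x ^ 2 * (Real.log x / x)) :=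
    h1.mul (Asymptotics.isBigO_refl _ _)
  have h3 : Tendsto (fun x : ℝ => x / Real.log x ^ 2 * (Real.log x / x)) atTop (𝓝 0) := by
    have h4 : Tendsto (fun x : ℝ => (Real.log x)⁻¹) atTop (𝓝 0) :=
      tendsto_inv_atTop_zero.comp Real.tendsto_log_atTop
    refine h4.congr' ?_
    filter_upwards [eventually_gt_atTop 1] with x hx
    have h5 : Real.log x ≠ 0 := (Real.log_pos hx).ne'
    have h6 : x ≠ 0 := by linarith
    field_simp
  have h4 := h2.trans_tendsto h3
  have h5 := h4.add theta_tendsto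
  rw [zero_add] at h5
  refine h5.congr' ?_
  filter_upwards [eventually_gt_atTop 1] with x hx
  have h5 : Real.log x ≠ 0 := (Real.log_pos hx).ne'
  have h6 : x ≠ 0 := by linarith
  field_simp
  ring

end Pool.Agent.W_pnt_h80
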