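import Pool.Agent.W_pnt_h80.Defs

set_option autoImplicit false

/-! Elementary properties of the Fejer kernel. -/

namespace Pool.Agent.W_pnt_h80

open MeasureTheory Set Filter Topology

theorem Fejer_aux1 {l : ℝ} (hl : 0 < l) (u : ℝ) : fej l u = l * Real.sinc (l * u / 2) ^ 2 := by
  unfold fej
  split_ifs with h
  · rw [h, mul_zero, zero_div, Real.sinc_zero]
    ring
  · have h1 : l * u / 2 ≠ 0 := by positivity
    rw [Real.sinc_of_ne_zero h1]
    have h2 : Real.cos (l * u) = 1 - 2 * Real.sin (l * u / 2) ^ 2 := by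
      have h3 := Real.cos_two_mul (l * u / 2)
      have h4 := Real.sin_sq_add_cos_sq (l * u / 2)
      rw [show 2 * (l * u / 2) = l * u by ring] at h3
      linarith
    rw [h2]
    have hl' : l ≠ 0 := hl.ne'
    field_simp
    ring

theorem fej_nonneg {l : ℝ} (hl : 0 < l) (u : ℝ) : 0 ≤ fej l u := by
  rw [Fejer_aux1 hl]
  positivity

theorem fej_scale {l : ℝ} (hl : 0 < l) (u : ℝ) : fej l u = l * fej 1 (l * u) := by
  rw [Fejer_aux1 hl, Fejer_aux1 one_pos, one_mul, one_mul]

theorem fej_le {l : ℝ} (hl : 0 < l) (u : ℝ) : fej l u ≤ l := by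
  rw [Fejer_aux1 hl]
  have h := Real.abs_sinc_le_one (l * u / 2)
  have h2 : Real.sinc (l * u / 2) ^ 2 ≤ 1 := by
    rw [← sq_abs]
    exact pow_le_one₀ (abs_nonneg _) h
  nlinarith

theorem fej_continuous {l : ℝ} (hl : 0 < l) : Continuous (fej l) := by
  rw [show fej l = fun u => l * Real.sinc (l * u / 2) ^ 2 from funext (Fejer_aux1 hl)]
  have h := Real.continuous_sinc
  fun_prop

theorem fej_even (l u : ℝ) : fej l (-u) = fej l u := by
  unfold fej
  simp only [neg_eq_zero, mul_neg, Real.cos_neg, neg_sq]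

theorem Fejer_aux2 {l : ℝ} (hl : 0 < l) {u : ℝ} (hu : u ≠ 0) (ε : ℝ) (a b : ℝ) :
    ∫ y in a..b, ((1 - ε * y / l : ℝ) : ℂ) * Complex.exp (Complex.I * y * u) =
      (((1 - ε * b / l : ℝ) : ℂ) * Complex.exp (Complex.I * b * u) / (Complex.I * u) +
        ((ε / l : ℝ) : ℂ) * Complex.exp (Complex.I * b * u) / (Complex.I * u) ^ 2) -
      (((1 - ε * a / l : ℝ) : ℂ) * Complex.exp (Complex.I * a * u) / (Complex.I * u) +
        ((ε / l : ℝ) : ℂ) * Complex.exp (Complex.I * a * u) / (Complex.I * u) ^ 2) := by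
  have hu' : (u : ℂ) ≠ 0 := by exact_mod_cast hu
  have hI : Complex.I * (u : ℂ) ≠ 0 := mul_ne_zero Complex.I_ne_zero hu'
  have hl' : (l : ℂ) ≠ 0 := by exact_mod_cast hl.ne'
  refine intervalIntegral.integral_eq_sub_of_hasDerivAt
    (f := fun y : ℝ => ((1 - ε * y / l : ℝ) : ℂ) * Complex.exp (Complex.I * y * u) / (Complex.I * u) +
        ((ε / l : ℝ) : ℂ) * Complex.exp (Complex.I * y * u) / (Complex.I * u) ^ 2) ?_ ?_
  · intro y _
    have h1 : HasDerivAt (fun y : ℝ => Complex.exp (Complex.I * y * u))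
        (Complex.exp (Complex.I * y * u) * (Complex.I * 1 * u)) y := by
      have h2 : HasDerivAt (fun y : ℝ => Complex.I * (y : ℂ) * u) (Complex.I * 1 * u) y :=
        (Complex.ofRealCLM.hasDerivAt.const_mul Complex.I).mul_const _
      exact h2.cexp
    have h3 : HasDerivAt (fun y : ℝ => ((1 - ε * y / l : ℝ) : ℂ)) ((-(ε * 1 / l) : ℝ) : ℂ) y := by
      have h4 : HasDerivAt (fun y : ℝ => 1 - ε * y / l) (-(ε * 1 / l)) y := by
        have h5 := (((hasDerivAt_id y).const_mul ε).div_const l).const_sub 1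
        exact h5
      exact h4.ofReal_comp
    have h6 := ((h3.mul h1).div_const (Complex.I * u)).add
      (((h1.const_mul ((ε / l : ℝ) : ℂ))).div_const ((Complex.I * u) ^ 2))
    refine h6.congr_deriv ?_
    push_cast
    field_simp
    ring
  · apply Continuous.intervalIntegrable
    fun_prop

/-- The Fejer kernel is the Fourier transform of the triangle weight. -/
theorem fej_fourier {l : ℝ} (hl : 0 < l) (u : ℝ) :
    ∫ y in (-l)..l, ((tri l y : ℝ) : ℂ) * Complex.exp (Complex.I * y * u) = (fej l u : ℂ) := by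
  have hl' : (l : ℂ) ≠ 0 := by exact_mod_cast hl.ne'
  have hcont : Continuous fun y : ℝ => ((tri l y : ℝ) : ℂ) * Complex.exp (Complex.I * y * u) := by
    unfold tri
    fun_prop
  rw [← intervalIntegral.integral_add_adjacent_intervals (b := (0 : ℝ))
    (hcont.intervalIntegrable _ _) (hcont.intervalIntegrable _ _)]
  have e1 : ∫ y in (-l)..0, ((tri l y : ℝ) : ℂ) * Complex.exp (Complex.I * y * u) =
      ∫ y in (-l)..0, ((1 - (-1) * y / l : ℝ) : ℂ) * Complex.exp (Complex.I * y * u) := by
    refine intervalIntegral.integral_congr fun y hy => ?_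
    rw [uIcc_of_le (by linarith)] at hy
    simp only [tri]
    rw [abs_of_nonpos hy.2, show (-y) = (-1) * y by ring]
  have e2 : ∫ y in (0 : ℝ)..l, ((tri l y : ℝ) : ℂ) * Complex.exp (Complex.I * y * u) =
      ∫ y in (0 : ℝ)..l, ((1 - 1 * y / l : ℝ) : ℂ) * Complex.exp (Complex.I * y * u) := by
    refine intervalIntegral.integral_congr fun y hy => ?_
    rw [uIcc_of_le hl.le] at hy
    simp only [tri]
    rw [abs_of_nonneg hy.1, one_mul]
  rw [e1, e2]
  by_cases hu : u = 0
  · subst hu
    have e3 : ∀ (ε a b : ℝ), ∫ y in a..b, ((1 - ε * y / l : ℝ) : ℂ) *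
        Complex.exp (Complex.I * y * (0 : ℝ)) = (((b - ε * b ^ 2 / (2 * l)) -
          (a - ε * a ^ 2 / (2 * l)) : ℝ) : ℂ) := by
      intro ε a b
      have e4 : ∫ y in a..b, ((1 - ε * y / l : ℝ) : ℂ) *
        Complex.exp (Complex.I * y * (0 : ℝ)) = ∫ y in a..b, ((1 - ε * y / l : ℝ) : ℂ) := by
        refine intervalIntegral.integral_congr fun y _ => ?_
        simp
      rw [e4, intervalIntegral.integral_ofReal]
      congr 1
      refine intervalIntegral.integral_eq_sub_of_hasDerivAt
        (f := fun y : ℝ => y - ε * y ^ 2 / (2 * l)) ?_ ?_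
      · intro y _
        have h5 := (hasDerivAt_id y).sub ((((hasDerivAt_id y).pow 2).const_mul ε).div_const (2 * l))
        refine h5.congr_deriv ?_
        simp only [id]
        field_simp
        norm_num
        ring
      · apply Continuous.intervalIntegrable
        fun_prop
    rw [e3, e3, ← Complex.ofReal_add]
    congr 1
    rw [fej, if_pos rfl]
    field_simp
    ring
  · rw [Fejer_aux2 hl hu, Fejer_aux2 hl hu]
    have hu' : (u : ℂ) ≠ 0 := by exact_mod_cast hu
    have h1 : ((1 - (-1) * (-l) / l : ℝ) : ℂ) = 0 := by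
      rw [← Complex.ofReal_zero]
      congr 1
      field_simp
      ring
    have h2 : ((1 - 1 * l / l : ℝ) : ℂ) = 0 := by
      rw [← Complex.ofReal_zero]
      congr 1
      field_simp
      ring
    have h3 : (fej l u : ℂ) = 2 * (1 - Complex.cos (l * u)) / (l * u ^ 2) := by
      rw [fej, if_neg hu]
      push_cast
      rfl
    have h4 : Complex.exp (Complex.I * l * u) + Complex.exp (-(Complex.I * l * u)) =
        2 * Complex.cos (l * u) := by
      rw [Complex.two_cos]
      rw [show Complex.I * l * u = l * u * Complex.I by ring]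
      rw [show -(l * u * Complex.I) = -(l * u) * Complex.I by ring]
    rw [h1, h2, h3]
    simp only [Complex.ofReal_zero, mul_zero, zero_mul, Complex.exp_zero, zero_div, sub_zero,
      zero_add, Complex.ofReal_neg, mul_neg, neg_mul]
    have h5 : (Complex.I * (u : ℂ)) ^ 2 = - (u : ℂ) ^ 2 := by
      rw [mul_pow, Complex.I_sq]
      ring
    have h6 : Complex.I * (u : ℂ) ≠ 0 := mul_ne_zero Complex.I_ne_zero hu'
    rw [h5]
    have h7 : Complex.exp (-(Complex.I * l * u)) =
        2 * Complex.cos (l * u) - Complex.exp (Complex.I * l * u) := by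
      rw [← h4]
      ring
    rw [h7]
    push_cast
    field_simp
    ring

theorem Fejer_aux3 {l : ℝ} (hl : 0 < l) {u : ℝ} (hu : u ≠ 0) : fej l u ≤ 4 / (l * u ^ 2) := by
  rw [fej, if_neg hu]
  have h := Real.neg_one_le_cos (l * u)
  have h2 : 0 < l * u ^ 2 := by positivity
  rw [div_le_div_iff_of_pos_right h2]
  linarith

theorem fej_integrable {l : ℝ} (hl : 0 < l) : Integrable (fej l) := by
  refine Integrable.mono' (integrable_inv_one_add_sq.const_mul (l + 4 / l))
    (fej_continuous hl).aestronglyMeasurable (Eventually.of_forall fun u => ?_)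
  rw [Real.norm_of_nonneg (fej_nonneg hl u), ← div_eq_mul_inv, le_div_iff₀ (by positivity)]
  have h1 := fej_le hl u
  have h2 : fej l u * u ^ 2 ≤ 4 / l := by
    by_cases hu : u = 0
    · rw [hu]
      have : 0 < 4 / l := by positivity
      simpa using this.le
    · have h3 := mul_le_mul_of_nonneg_right (Fejer_aux3 hl hu) (sq_nonneg u)
      refine h3.trans (le_of_eq ?_)
      field_simp
  linarith

theorem fej_integral_pos : 0 < ∫ u, fej 1 u := by
  rw [integral_pos_iff_support_of_nonneg (fun u => fej_nonneg one_pos u) (fej_integrable one_pos)]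
  refine IsOpen.measure_pos volume (fej_continuous one_pos).isOpen_support ⟨0, ?_⟩
  simp [fej]

theorem fej_integral_eq {l : ℝ} (hl : 0 < l) : ∫ u, fej l u = ∫ u, fej 1 u := by
  have h1 : ∀ u, fej l u = l * fej 1 (l * u) := fej_scale hl
  simp_rw [h1]
  rw [integral_const_mul, Measure.integral_comp_mul_left (fej 1) l, smul_eq_mul,
    abs_of_pos (by positivity), ← mul_assoc, mul_inv_cancel₀ hl.ne', one_mul]

/-- The mass outside `[-δ, δ]` tends to zero as `l → ∞`. -/
theorem fej_tail {δ η : ℝ} (hδ : 0 < δ) (hη : 0 < η) :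
    ∃ l0 : ℝ, 0 < l0 ∧ ∀ l : ℝ, l0 ≤ l → ∫ u in {u : ℝ | δ ≤ |u|}, fej l u ≤ η := by
  have hπ := Real.pi_pos
  refine ⟨4 * (1 + 1 / δ ^ 2) * Real.pi / η, by positivity, fun l hl0 => ?_⟩
  have hl : 0 < l := lt_of_lt_of_le (by positivity) hl0
  have hms : MeasurableSet {u : ℝ | δ ≤ |u|} := by
    apply IsClosed.measurableSet
    exact isClosed_le continuous_const continuous_abs
  have hi : Integrable fun u : ℝ => (4 / l * (1 + 1 / δ ^ 2)) * (1 + u ^ 2)⁻¹ :=
    integrable_inv_one_add_sq.const_mul _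
  have h1 : ∫ u in {u : ℝ | δ ≤ |u|}, fej l u ≤
      ∫ u in {u : ℝ | δ ≤ |u|}, (4 / l * (1 + 1 / δ ^ 2)) * (1 + u ^ 2)⁻¹ := by
    refine setIntegral_mono_on (fej_integrable hl).integrableOn hi.integrableOn hms ?_
    intro u hu
    have hu1 : δ ≤ |u| := hu
    have hu0 : u ≠ 0 := by
      intro h0
      rw [h0, abs_zero] at hu1
      linarith
    refine (Fejer_aux3 hl hu0).trans ?_
    have hu2 : δ ^ 2 ≤ u ^ 2 := by
      rw [← sq_abs u]
      exact pow_le_pow_left₀ hδ.le hu1 2
    have hu3 : 0 < u ^ 2 := by positivity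
    have h3 : 1 + u ^ 2 ≤ (1 + 1 / δ ^ 2) * u ^ 2 := by
      have h4 : 1 ≤ 1 / δ ^ 2 * u ^ 2 := by
        rw [one_div, inv_mul_eq_div, le_div_iff₀ (by positivity)]
        linarith
      linarith
    have h5 : 4 / (l * u ^ 2) = 4 / l * (u ^ 2)⁻¹ := by
      field_simp
    rw [h5, mul_assoc]
    refine mul_le_mul_of_nonneg_left ?_ (by positivity)
    rw [← div_eq_mul_inv, le_div_iff₀ (by positivity), inv_mul_eq_div, div_le_iff₀ hu3]
    exact h3
  refine h1.trans ?_
  refine (setIntegral_le_integral hi (Eventually.of_forall fun u => by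
    simp only [Pi.zero_apply]; positivity)).trans ?_
  rw [integral_const_mul, integral_univ_inv_one_add_sq]
  rw [div_le_iff₀ hη] at hl0
  rw [div_mul_eq_mul_div, div_mul_eq_mul_div, div_le_iff₀ hl]
  linarith

end Pool.Agent.W_pnt_h80
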