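import Mathlib

set_option autoImplicit false

/-!
# Prime number theorem (in arithmetic progressions), Wiener-Ikehara route: definitions
-/

namespace Pool.Agent.W_pnt_h80

open MeasureTheory Set Filter Topology

/-- The Fejer kernel `fej l u = 2 (1 - cos (l u)) / (l u^2)`, with value `l` at `u = 0`. -/
noncomputable def fej (l u : ℝ) : ℝ :=
  if u = 0 then l else 2 * (1 - Real.cos (l * u)) / (l * u ^ 2)

/-- The triangle weight on `[-l, l]`. -/
noncomputable def tri (l y : ℝ) : ℝ := 1 - |y| / l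

/-- `psiR a x = ∑_{k ≤ x, k ≡ a mod q} Λ(k)`. -/
noncomputable def psiR {q : ℕ} (a : ZMod q) (x : ℝ) : ℝ :=
  ∑ k ∈ Finset.Icc 1 ⌊x⌋₊, ArithmeticFunction.vonMangoldt.residueClass a k

/-- The normalised function `B(t) = psiR a (e^t) e^(-t)`. -/
noncomputable def BR {q : ℕ} (a : ZMod q) (t : ℝ) : ℝ := psiR a (Real.exp t) * Real.exp (-t)

end Pool.Agent.W_pnt_h80
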