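import Pool.Agent.W_pnt_h80.Fejer

set_option autoImplicit false

/-! Fubini and the limit `ε → 0`. -/

namespace Pool.Agent.W_pnt_h80

open MeasureTheory Set Filter Topology

theorem Fubini_norm (e y t : ℝ) :
    ‖Complex.exp (-((e : ℂ) + Complex.I * y) * t)‖ = Real.exp (-e * t) := by
  rw [Complex.norm_exp]
  congr 1
  simp

theorem Fubini_norm2 (y v : ℝ) : ‖Complex.exp (Complex.I * y * v)‖ = 1 := by
  rw [Complex.norm_exp]
  simp

theorem Fubini_tri_le {l : ℝ} (hl : 0 < l) (y : ℝ) : |tri l y| ≤ 1 + |y| / l := by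
  unfold tri
  have h1 : 0 ≤ |y| / l := div_nonneg (abs_nonneg _) hl.le
  rw [abs_le]
  constructor <;> linarith

theorem Fubini_tri_continuous (l : ℝ) : Continuous (tri l) := by
  unfold tri
  fun_prop

theorem Fubini_integrable {l e v C : ℝ} (hl : 0 < l) (he : 0 < e) {D : ℝ → ℝ} (hm : Measurable D)
    (hD : ∀ t, |D t| ≤ C) :
    Integrable (Function.uncurry fun (y t : ℝ) => ((tri l y : ℝ) : ℂ) *
      Complex.exp (Complex.I * y * v) * ((D t : ℂ) * Complex.exp (-((e : ℂ) + Complex.I * y) * t)))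
      ((volume.restrict (Ioc (-l) l)).prod (volume.restrict (Ioi 0))) := by
  have hg : Integrable (fun p : ℝ × ℝ => (1 + |p.1| / l) * (C * Real.exp (-e * p.2)))
      ((volume.restrict (Ioc (-l) l)).prod (volume.restrict (Ioi 0))) := by
    refine Integrable.mul_prod (f := fun y : ℝ => 1 + |y| / l)
      (g := fun t : ℝ => C * Real.exp (-e * t)) ?_ ?_
    · have h1 : Continuous fun y : ℝ => 1 + |y| / l := by fun_prop
      exact (h1.integrableOn_Icc (a := -l) (b := l)).mono_set Ioc_subset_Icc_self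
    · exact (integrableOn_exp_mul_Ioi (by linarith) 0).const_mul C
  refine hg.mono' ?_ (Filter.Eventually.of_forall fun p => ?_)
  · have h1 := Fubini_tri_continuous l
    refine Measurable.aestronglyMeasurable ?_
    have h2 : Measurable fun p : ℝ × ℝ => ((tri l p.1 : ℝ) : ℂ) :=
      (Complex.continuous_ofReal.comp (h1.comp continuous_fst)).measurable
    have h3 : Measurable fun p : ℝ × ℝ => ((D p.2 : ℝ) : ℂ) :=
      Complex.measurable_ofReal.comp (hm.comp measurable_snd)
    have h4 : Measurable fun p : ℝ × ℝ => Complex.exp (Complex.I * p.1 * v) := by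
      have : Continuous fun p : ℝ × ℝ => Complex.exp (Complex.I * p.1 * v) := by fun_prop
      exact this.measurable
    have h5 : Measurable fun p : ℝ × ℝ => Complex.exp (-((e : ℂ) + Complex.I * p.1) * p.2) := by
      have : Continuous fun p : ℝ × ℝ => Complex.exp (-((e : ℂ) + Complex.I * p.1) * p.2) := by
        fun_prop
      exact this.measurable
    exact (h2.mul h4).mul (h3.mul h5)
  · show ‖((tri l p.1 : ℝ) : ℂ) * Complex.exp (Complex.I * p.1 * v) *
      ((D p.2 : ℂ) * Complex.exp (-((e : ℂ) + Complex.I * p.1) * p.2))‖ ≤ _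
    rw [norm_mul, norm_mul, norm_mul, Fubini_norm, Fubini_norm2, mul_one, Complex.norm_real,
      Complex.norm_real, Real.norm_eq_abs, Real.norm_eq_abs]
    have h1 := Fubini_tri_le hl p.1
    have h2 := hD p.2
    exact mul_le_mul h1 (mul_le_mul_of_nonneg_right h2 (Real.exp_pos _).le)
      (mul_nonneg (abs_nonneg _) (Real.exp_pos _).le) ((abs_nonneg _).trans h1)

/-- Fubini: the Fejer average of the Laplace transform. -/
theorem fubini_fej {l e v C : ℝ} (hl : 0 < l) (he : 0 < e) {D : ℝ → ℝ} (hm : Measurable D)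
    (hD : ∀ t, |D t| ≤ C) :
    ∫ y in (-l)..l, ((tri l y : ℝ) : ℂ) * Complex.exp (Complex.I * y * v) *
        (∫ t in Ioi (0 : ℝ), (D t : ℂ) * Complex.exp (-((e : ℂ) + Complex.I * y) * t)) =
      ((∫ t in Ioi (0 : ℝ), D t * Real.exp (-e * t) * fej l (v - t) : ℝ) : ℂ) := by
  have hl' : -l ≤ l := by linarith
  rw [intervalIntegral.integral_of_le hl']
  have h1 : ∀ y : ℝ, ((tri l y : ℝ) : ℂ) * Complex.exp (Complex.I * y * v) *
      (∫ t in Ioi (0 : ℝ), (D t : ℂ) * Complex.exp (-((e : ℂ) + Complex.I * y) * t)) =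
      ∫ t in Ioi (0 : ℝ), ((tri l y : ℝ) : ℂ) * Complex.exp (Complex.I * y * v) *
        ((D t : ℂ) * Complex.exp (-((e : ℂ) + Complex.I * y) * t)) := fun y =>
    (integral_const_mul _ _).symm
  simp_rw [h1]
  rw [integral_integral_swap (Fubini_integrable hl he hm hD), ← integral_complex_ofReal]
  refine integral_congr_ae (Filter.Eventually.of_forall fun t => ?_)
  show ∫ y in Ioc (-l) l, ((tri l y : ℝ) : ℂ) * Complex.exp (Complex.I * y * v) *
        ((D t : ℂ) * Complex.exp (-((e : ℂ) + Complex.I * y) * t)) =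
        ((D t * Real.exp (-e * t) * fej l (v - t) : ℝ) : ℂ)
  have h2 : ∀ y : ℝ, ((tri l y : ℝ) : ℂ) * Complex.exp (Complex.I * y * v) *
        ((D t : ℂ) * Complex.exp (-((e : ℂ) + Complex.I * y) * t)) =
      ((D t * Real.exp (-e * t) : ℝ) : ℂ) *
        (((tri l y : ℝ) : ℂ) * Complex.exp (Complex.I * y * ((v - t : ℝ) : ℂ))) := by
    intro y
    have h3 : Complex.exp (Complex.I * y * v) * Complex.exp (-((e : ℂ) + Complex.I * y) * t) =
        ((Real.exp (-e * t) : ℝ) : ℂ) * Complex.exp (Complex.I * y * ((v - t : ℝ) : ℂ)) := by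
      rw [Complex.ofReal_exp, ← Complex.exp_add, ← Complex.exp_add]
      congr 1
      push_cast
      ring
    calc _ = ((tri l y : ℝ) : ℂ) * (D t : ℂ) * (Complex.exp (Complex.I * y * v) *
          Complex.exp (-((e : ℂ) + Complex.I * y) * t)) := by ring
      _ = _ := by rw [h3]; push_cast; ring
  simp_rw [h2]
  rw [integral_const_mul, ← intervalIntegral.integral_of_le hl', fej_fourier hl]
  push_cast
  ring

/-- Dominated convergence on both sides as `e → 0+`. -/
theorem fubini_fej_zero {l v C : ℝ} (hl : 0 < l) {D : ℝ → ℝ} (hm : Measurable D)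
    (hD : ∀ t, |D t| ≤ C) {G : ℝ × ℝ → ℂ} (hG : ContinuousOn G (Ici 0 ×ˢ univ))
    (hGD : ∀ e y : ℝ, 0 < e → ∫ t in Ioi (0 : ℝ), (D t : ℂ) *
      Complex.exp (-((e : ℂ) + Complex.I * y) * t) = G (e, y)) :
    ∫ y in (-l)..l, ((tri l y : ℝ) : ℂ) * Complex.exp (Complex.I * y * v) * G (0, y) =
      ((∫ t in Ioi (0 : ℝ), D t * fej l (v - t) : ℝ) : ℂ) := by
  have hC : 0 ≤ C := (abs_nonneg _).trans (hD 0)
  have hGc : ∀ e : ℝ, 0 ≤ e → Continuous fun y : ℝ => G (e, y) := by
    intro e he
    refine hG.comp_continuous (by fun_prop) fun y => ?_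
    exact ⟨he, mem_univ _⟩
  have hbd : ∃ M, ∀ x ∈ Icc (0 : ℝ) 1 ×ˢ Icc (-l) l, ‖G x‖ ≤ M := by
    refine (isCompact_Icc.prod isCompact_Icc).exists_bound_of_continuousOn (hG.mono ?_)
    rintro ⟨a, b⟩ ⟨ha, hb⟩
    exact ⟨ha.1, mem_univ _⟩
  obtain ⟨M, hM⟩ := hbd
  have hsmall : ∀ᶠ e : ℝ in 𝓝[>] 0, e < 1 :=
    nhdsWithin_le_nhds (Iio_mem_nhds one_pos)
  have hpos : ∀ᶠ e : ℝ in 𝓝[>] 0, 0 < e := self_mem_nhdsWithin
  -- the left side
  have hL : Tendsto (fun e : ℝ => ∫ y in (-l)..l, ((tri l y : ℝ) : ℂ) *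
      Complex.exp (Complex.I * y * v) * G (e, y)) (𝓝[>] 0)
      (𝓝 (∫ y in (-l)..l, ((tri l y : ℝ) : ℂ) * Complex.exp (Complex.I * y * v) * G (0, y))) := by
    refine intervalIntegral.tendsto_integral_filter_of_dominated_convergence
      (fun y => (1 + |y| / l) * M) ?_ ?_ ?_ ?_
    · filter_upwards [hpos] with e he
      have h1 := Fubini_tri_continuous l
      have h2 := hGc e he.le
      have h3 : Continuous fun y : ℝ => ((tri l y : ℝ) : ℂ) * Complex.exp (Complex.I * y * v) *
          G (e, y) := by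
        refine Continuous.mul (Continuous.mul (Complex.continuous_ofReal.comp h1) ?_) h2
        fun_prop
      exact h3.aestronglyMeasurable
    · filter_upwards [hpos, hsmall] with e he he1
      refine Filter.Eventually.of_forall fun y hy => ?_
      rw [uIoc_of_le (by linarith)] at hy
      rw [norm_mul, norm_mul, Fubini_norm2, mul_one, Complex.norm_real, Real.norm_eq_abs]
      have h1 := Fubini_tri_le hl y
      exact mul_le_mul h1 (hM (e, y) ⟨⟨he.le, he1.le⟩, ⟨hy.1.le, hy.2⟩⟩) (norm_nonneg _)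
        ((abs_nonneg _).trans h1)
    · have h1 : Continuous fun y : ℝ => (1 + |y| / l) * M := by fun_prop
      exact h1.intervalIntegrable _ _
    · refine Filter.Eventually.of_forall fun y _ => ?_
      refine Tendsto.const_mul _ ?_
      have h1 : Tendsto (fun e : ℝ => (e, y)) (𝓝[>] 0) (𝓝[Ici 0 ×ˢ univ] (0, y)) := by
        refine tendsto_nhdsWithin_iff.2 ⟨?_, ?_⟩
        · have h2 : Continuous fun e : ℝ => (e, y) := by fun_prop
          exact (h2.tendsto 0).mono_left nhdsWithin_le_nhds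
        · filter_upwards [hpos] with e he
          exact ⟨he.le, mem_univ _⟩
      exact (hG (0, y) ⟨le_refl (0 : ℝ), mem_univ _⟩).tendsto.comp h1
  -- the right side
  have hR : Tendsto (fun e : ℝ => ∫ t in Ioi (0 : ℝ), D t * Real.exp (-e * t) * fej l (v - t))
      (𝓝[>] 0) (𝓝 (∫ t in Ioi (0 : ℝ), D t * fej l (v - t))) := by
    have hfm : Measurable fun t : ℝ => fej l (v - t) :=
      ((fej_continuous hl).comp (by fun_prop)).measurable
    refine tendsto_integral_filter_of_dominated_convergence (fun t => C * fej l (v - t)) ?_ ?_ ?_ ?_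
    · refine Filter.Eventually.of_forall fun e => ?_
      refine Measurable.aestronglyMeasurable ?_
      exact (hm.mul (by fun_prop)).mul hfm
    · filter_upwards [hpos] with e he
      refine (ae_restrict_mem measurableSet_Ioi).mono fun t ht => ?_
      have ht' : 0 < t := ht
      rw [norm_mul, norm_mul, Real.norm_eq_abs, Real.norm_eq_abs, Real.norm_eq_abs,
        abs_of_pos (Real.exp_pos _), abs_of_nonneg (fej_nonneg hl _)]
      refine mul_le_mul_of_nonneg_right ?_ (fej_nonneg hl _)
      have h1 : Real.exp (-e * t) ≤ 1 := Real.exp_le_one_iff.2 (by nlinarith)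
      calc |D t| * Real.exp (-e * t) ≤ C * 1 :=
            mul_le_mul (hD t) h1 (Real.exp_pos _).le hC
        _ = C := mul_one C
    · exact (((fej_integrable hl).comp_sub_left v).const_mul C).integrableOn
    · refine Filter.Eventually.of_forall fun t => ?_
      have h1 : Tendsto (fun e : ℝ => D t * Real.exp (-e * t) * fej l (v - t)) (𝓝 0)
          (𝓝 (D t * Real.exp (-0 * t) * fej l (v - t))) := by
        have h2 : Continuous fun e : ℝ => D t * Real.exp (-e * t) * fej l (v - t) := by fun_prop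
        exact h2.tendsto 0
      have h3 : D t * Real.exp (-0 * t) * fej l (v - t) = D t * fej l (v - t) := by
        rw [neg_zero, zero_mul, Real.exp_zero, mul_one]
      rw [h3] at h1
      exact h1.mono_left nhdsWithin_le_nhds
  have hR' := (Complex.continuous_ofReal.tendsto _).comp hR
  refine tendsto_nhds_unique hL (hR'.congr' ?_)
  filter_upwards [hpos] with e he
  show ((∫ t in Ioi (0 : ℝ), D t * Real.exp (-e * t) * fej l (v - t) : ℝ) : ℂ) = _
  rw [← fubini_fej hl he hm hD]
  simp_rw [hGD e _ he]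

end Pool.Agent.W_pnt_h80
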